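import Pool.Agent.H97.WD.Dz3

/-! [H97 WD Dz4] degree zero: the local factors and the end -/

set_option autoImplicit false

namespace Pool.Agent.H97.WD

open Complex Filter Topology Pool.Agent.H11.Selberg

/-- the recursion at the powers of a prime -/
theorem rec_pow (a b : ℕ → ℂ) (p : ℕ) (hp : p.Prime)
    (hrec : ∀ n : ℕ, n ≠ 0 →
      (Real.log n : ℂ) * a n = ∑ q ∈ n.divisors, a (n / q) * ((Real.log q : ℂ) * bb b q))
    (j : ℕ) :
    ((j + 1 : ℕ) : ℂ) * a (p ^ (j + 1)) =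
      ∑ kl ∈ Finset.HasAntidiagonal.antidiagonal j,
        a (p ^ kl.1) * (((kl.2 + 1 : ℕ) : ℂ) * b (p ^ (kl.2 + 1))) := by
  have hlog : (Real.log p : ℂ) ≠ 0 := by
    have : Real.log p ≠ 0 := (Real.log_pos (by exact_mod_cast hp.one_lt)).ne'
    exact_mod_cast this
  have h1 := hrec (p ^ (j + 1)) (pow_ne_zero _ hp.ne_zero)
  rw [Nat.sum_divisors_prime_pow hp, Finset.sum_range_succ'] at h1
  have h0 : a (p ^ (j + 1) / p ^ 0) * ((Real.log ((p ^ 0 : ℕ) : ℝ) : ℂ) * bb b (p ^ 0)) = 0 := by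
    simp
  rw [h0, add_zero] at h1
  have h2 : ∀ i ∈ Finset.range (j + 1),
      a (p ^ (j + 1) / p ^ (i + 1)) * ((Real.log ((p ^ (i + 1) : ℕ) : ℝ) : ℂ) * bb b (p ^ (i + 1)))
        = (Real.log p : ℂ) * (a (p ^ (j - i)) * (((i + 1 : ℕ) : ℂ) * b (p ^ (i + 1)))) := by
    intro i hi
    have hi' : i < j + 1 := Finset.mem_range.1 hi
    have h3 : p ^ (j + 1) / p ^ (i + 1) = p ^ (j - i) := by
      rw [Nat.pow_div (by omega) hp.pos]
      congr 1
      omega
    have h4 : bb b (p ^ (i + 1)) = b (p ^ (i + 1)) := by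
      unfold bb
      rw [if_pos (hp.isPrimePow.pow (by omega))]
    have h5 : Real.log ((p ^ (i + 1) : ℕ) : ℝ) = ((i + 1 : ℕ) : ℝ) * Real.log p := by
      rw [Nat.cast_pow, Real.log_pow]
    rw [h3, h4, h5, ofReal_mul]
    push_cast
    ring
  rw [Finset.sum_congr rfl h2, ← Finset.mul_sum] at h1
  have h6 : (Real.log ((p ^ (j + 1) : ℕ) : ℝ) : ℂ) = (Real.log p : ℂ) * ((j + 1 : ℕ) : ℂ) := by
    rw [Nat.cast_pow, Real.log_pow, ofReal_mul]
    push_cast
    ring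
  rw [h6, mul_assoc] at h1
  rw [mul_left_cancel₀ hlog h1, ← Finset.Nat.sum_antidiagonal_swap,
    Finset.Nat.sum_antidiagonal_eq_sum_range_succ_mk]
  rfl

/-- the size of the last coefficient at the powers of a prime -/
theorem pow_bound (a b : ℕ → ℂ) (ha1 : a 1 = 1) (θ C : ℝ)
    (hb : ∀ p : ℕ, p.Prime → ∀ l : ℕ, 1 ≤ l → ‖b (p ^ l)‖ ≤ C * ((p : ℝ) ^ l) ^ θ)
    (hrec : ∀ n : ℕ, n ≠ 0 →
      (Real.log n : ℂ) * a n = ∑ q ∈ n.divisors, a (n / q) * ((Real.log q : ℂ) * bb b q))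
    (hmul : ∀ x y : ℕ, Nat.Coprime x y → a (x * y) = a x * a y)
    (M : ℕ) (hM : M ≠ 0) (haM : a M ≠ 0) (hv : ∀ n, M < n → a n = 0) (p : ℕ) (hp : p.Prime) :
    ‖a (p ^ M.factorization p)‖ ≤ ((p : ℝ) ^ θ) ^ M.factorization p := by
  set L := M.factorization p with hL
  set c := M / p ^ L with hc
  have hMc : p ^ L * c = M := Nat.ordProj_mul_ordCompl_eq_self M p
  have hcop : ∀ j : ℕ, Nat.Coprime (p ^ j) c := fun j =>
    (Nat.coprime_ordCompl hp hM).pow_left j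
  have hcpos : 0 < c := Nat.ordCompl_pos p hM
  have h1 : a (p ^ L) * a c ≠ 0 := by
    rw [← hmul _ _ (hcop L), hMc]
    exact haM
  have hac : a c ≠ 0 := right_ne_zero_of_mul h1
  have haL : a (p ^ L) ≠ 0 := left_ne_zero_of_mul h1
  have hz : ∀ j, L < j → a (p ^ j) = 0 := by
    intro j hj
    have h2 : a (p ^ j * c) = 0 := by
      refine hv _ ?_
      rw [← hMc]
      exact Nat.mul_lt_mul_of_pos_right (Nat.pow_lt_pow_right hp.one_lt hj) hcpos
    rw [hmul _ _ (hcop j)] at h2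
    rcases mul_eq_zero.1 h2 with h3 | h3
    · exact h3
    · exact absurd h3 hac
  have hp0 : (0 : ℝ) < p := by exact_mod_cast hp.pos
  refine loc_bound (fun j => a (p ^ j)) (fun l => b (p ^ l)) (by simpa using ha1) L haL hz C
    ((p : ℝ) ^ θ) (Real.rpow_pos_of_pos hp0 _) ?_ ?_
  · intro l hl
    refine (hb p hp l hl).trans (le_of_eq ?_)
    congr 1
    rw [← Real.rpow_natCast, ← Real.rpow_natCast, ← Real.rpow_mul hp0.le, ← Real.rpow_mul hp0.le,
      mul_comm]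
  · intro j
    exact rec_pow a b p hp hrec j

theorem glob_bound (a b : ℕ → ℂ) (ha1 : a 1 = 1) (θ C : ℝ)
    (hb : ∀ p : ℕ, p.Prime → ∀ l : ℕ, 1 ≤ l → ‖b (p ^ l)‖ ≤ C * ((p : ℝ) ^ l) ^ θ)
    (hrec : ∀ n : ℕ, n ≠ 0 →
      (Real.log n : ℂ) * a n = ∑ q ∈ n.divisors, a (n / q) * ((Real.log q : ℂ) * bb b q))
    (hmul : ∀ x y : ℕ, Nat.Coprime x y → a (x * y) = a x * a y)
    (M : ℕ) (hM : M ≠ 0) (haM : a M ≠ 0) (hv : ∀ n, M < n → a n = 0) :
    ‖a M‖ ≤ (M : ℝ) ^ θ := by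
  have h1 := Nat.multiplicative_factorization a hmul ha1 hM
  have h2 := Nat.multiplicative_factorization (fun n : ℕ => (n : ℝ) ^ θ)
    (fun x y _ => by
      push_cast
      exact Real.mul_rpow (Nat.cast_nonneg x) (Nat.cast_nonneg y)) (by simp) hM
  rw [h2, h1, Finsupp.prod, Finsupp.prod, norm_prod]
  refine Finset.prod_le_prod (fun p _ => norm_nonneg _) fun p hp => ?_
  have hpp : p.Prime := Nat.prime_of_mem_primeFactors (by simpa using hp)
  refine (pow_bound a b ha1 θ C hb hrec hmul M hM haM hv p hpp).trans (le_of_eq ?_)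
  have hp0 : (0 : ℝ) ≤ p := Nat.cast_nonneg p
  push_cast
  rw [← Real.rpow_natCast, ← Real.rpow_natCast, ← Real.rpow_mul hp0, ← Real.rpow_mul hp0,
    mul_comm]

/-- a Dirichlet series in the Selberg class (Euler product) with an entire absolutely convergent
series and the functional equation of degree zero is `1` -/
theorem deg_zero (a : ℕ → ℂ) (F : ℂ → ℂ) (hS : IsSelberg a F)
    (hall : ∀ s : ℂ, LSeriesSummable a s) (Q : ℝ) (hQ : 0 < Q) (ε : ℂ) (hε : ‖ε‖ = 1)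
    (hfe : ∀ s : ℂ, LSeries a s = ε * (Q : ℂ) ^ (1 - 2 * s) *
      LSeries (fun n => (starRingEnd ℂ) (a n)) (1 - s)) :
    ∀ s : ℂ, 1 < s.re → F s = 1 := by
  have hRap := rap_of_summable a hall
  set M := ⌊Q ^ 2⌋₊ with hM
  have hMle : (M : ℝ) ≤ Q ^ 2 := Nat.floor_le (by positivity)
  have hMlt : Q ^ 2 < M + 1 := Nat.lt_floor_add_one _
  have hv := vanish a hRap Q hQ ε hε hfe M hMle hMlt
  obtain ⟨hMQ, haM⟩ := lead a hS.one Q hQ ε hε hfe M hMle hv
  obtain ⟨b, θ, C, hθ, hb, hE⟩ := hS.euler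
  have hrec := conv_rec a hS.summable b θ C hθ hb (fun s hs => by
    have := hE s hs
    rwa [hS.eq_LSeries s hs] at this)
  have hmul0 := mult_of_rec a (fun q => (Real.log q : ℂ) * bb b q) hS.one (fun q hq => by
    simp [bb, hq]) hrec
  have hmul : ∀ x y : ℕ, Nat.Coprime x y → a (x * y) = a x * a y := by
    intro x y hxy
    rcases eq_or_ne (x * y) 0 with h0 | h0
    · rcases Nat.mul_eq_zero.1 h0 with hx | hy
      · subst hx
        have : y = 1 := by simpa using hxy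
        subst this
        rw [hS.one, mul_one, mul_one]
      · subst hy
        have : x = 1 := by simpa using hxy
        subst this
        rw [hS.one, one_mul, one_mul]
    · exact hmul0 (x * y) x y rfl h0 hxy
  have hM0 : M ≠ 0 := by
    intro h
    rw [h] at hMQ
    have : 0 < Q ^ 2 := by positivity
    rw [← hMQ] at this
    simp at this
  have haM0 : a M ≠ 0 := by
    intro h
    rw [h, norm_zero] at haM
    exact hQ.ne haM
  have hg := glob_bound a b hS.one θ C hb hrec hmul M hM0 haM0 hv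
  rw [haM] at hg
  have hM1 : M = 1 := by
    by_contra hne
    have hM2 : 2 ≤ M := by omega
    have h1 : (1 : ℝ) < M := by exact_mod_cast (by omega : 1 < M)
    have h2 : (M : ℝ) ^ θ < (M : ℝ) ^ (1 / 2 : ℝ) := Real.rpow_lt_rpow_of_exponent_lt h1 hθ
    have h3 : (M : ℝ) ^ (1 / 2 : ℝ) = Q := by
      rw [hMQ, ← Real.sqrt_eq_rpow, Real.sqrt_sq hQ.le]
    rw [h3] at h2
    exact absurd hg (not_le.2 h2)
  intro s hs
  rw [hS.eq_LSeries s hs, fin_LSeries a M hv, hM1]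
  simp [hS.one]

end Pool.Agent.H97.WD
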