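import Pool.Agent.H97.WD.Dz4
import Pool.Agent.H30.WD.FaDef

/-! [H97 WD Dz5] degree zero from rapid decay and the functional equation in the strip -/

set_option autoImplicit false

namespace Pool.Agent.H97.WD

open Complex Filter Topology Pool.Agent.H11.Selberg

/-- with rapidly decaying coefficients `F` is the Dirichlet series off the point `1` -/
theorem eq_series (a : ℕ → ℂ) (F : ℂ → ℂ) (h : IsSelberg a F) (hR : Rap a) (s : ℂ) (hs : s ≠ 1) :
    F s = LSeries a s := by
  obtain ⟨m, G, hG, -, hGF⟩ := h.continuation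
  have h1 : AnalyticOnNhd ℂ G Set.univ := fun z _ => hG.analyticAt z
  have h2 : AnalyticOnNhd ℂ (fun z => (z - 1) ^ m * LSeries a z) Set.univ := by
    have : Differentiable ℂ fun z : ℂ => (z - 1) ^ m * LSeries a z :=
      ((differentiable_id.sub (differentiable_const _)).pow m).mul hR.differentiable
    exact fun z _ => this.analyticAt z
  have hev : G =ᶠ[nhds (2 : ℂ)] fun z => (z - 1) ^ m * LSeries a z := by
    have hop : IsOpen {z : ℂ | 1 < z.re} := isOpen_lt continuous_const continuous_re
    filter_upwards [hop.mem_nhds (by norm_num : (1 : ℝ) < (2 : ℂ).re)] with z hz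
    have hz1 : z ≠ 1 := by
      rintro rfl
      simp at hz
    rw [hGF z hz1, h.eq_LSeries z hz]
  have h3 := congrFun (AnalyticOnNhd.eq_of_eventuallyEq h1 h2 hev) s
  rw [hGF s hs] at h3
  exact mul_left_cancel₀ (pow_ne_zero _ (sub_ne_zero.2 hs)) h3

theorem deg_zero' (a : ℕ → ℂ) (F : ℂ → ℂ) (h : IsSelberg a F) (hR : Rap a)
    (hd : Pool.Agent.H30.WD.HasFE F 0) : ∀ s : ℂ, 1 < s.re → F s = 1 := by
  obtain ⟨Q, r, lam, mu, ε, hQ, hlam, hmu, hε, hfe, hdd⟩ := hd
  have hr : r = 0 := by
    by_contra hr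
    have : 0 < ∑ j, lam j :=
      Finset.sum_pos (fun j _ => hlam j) ⟨⟨0, Nat.pos_of_ne_zero hr⟩, Finset.mem_univ _⟩
    linarith
  subst hr
  refine deg_zero a F h (fun s => hR.summable s) Q hQ ε hε ?_
  refine fe_all a hR Q hQ ε fun s h0 h1 => ?_
  have h2 := hfe s h0 h1
  have hs1 : s ≠ 1 := by
    rintro rfl
    simp at h1
  have hs2 : 1 - (starRingEnd ℂ) s ≠ 1 := by
    intro h3
    have := congrArg Complex.re h3
    simp at this
    linarith
  unfold completed at h2
  simp only [Finset.univ_eq_empty, Finset.prod_empty, mul_one] at h2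
  rw [eq_series a F h hR s hs1, eq_series a F h hR _ hs2] at h2
  exact h2

end Pool.Agent.H97.WD
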