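import Mathlib

/-! [H97 WD Dz1] Dirichlet series with rapidly decaying coefficients and a functional equation of
degree zero: the coefficients vanish beyond `Q^2`, `Q^2` is an integer and `|a(Q^2)| = Q` -/

set_option autoImplicit false

namespace Pool.Agent.H97.WD

open Complex

/-- rapid decay -/
def Rap (a : ℕ → ℂ) : Prop := ∀ k : ℕ, ∃ C : ℝ, ∀ n : ℕ, 1 ≤ n → ‖a n‖ ≤ C * (n : ℝ) ^ (-(k : ℝ))

theorem Rap.mono {a b : ℕ → ℂ} (h : Rap a) (hb : ∀ n, ‖b n‖ ≤ ‖a n‖) : Rap b := by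
  intro k
  obtain ⟨C, hC⟩ := h k
  exact ⟨C, fun n hn => (hb n).trans (hC n hn)⟩

theorem Rap.summable {a : ℕ → ℂ} (h : Rap a) (s : ℂ) : LSeriesSummable a s := by
  obtain ⟨k, hk⟩ := exists_nat_gt (1 - s.re)
  obtain ⟨C, hC⟩ := h k
  refine LSeriesSummable_of_le_const_mul_rpow (x := 1 - k) (by linarith) ⟨C, fun n hn => ?_⟩
  have := hC n (Nat.one_le_iff_ne_zero.2 hn)
  have h2 : (1 - (k : ℝ) - 1) = -(k : ℝ) := by ring
  rwa [h2]

theorem Rap.abs {a : ℕ → ℂ} (h : Rap a) (s : ℂ) : LSeries.abscissaOfAbsConv a < s.re := by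
  refine lt_of_le_of_lt (h.summable (s - 1)).abscissaOfAbsConv_le (EReal.coe_lt_coe_iff.2 ?_)
  simp

theorem Rap.differentiable {a : ℕ → ℂ} (h : Rap a) : Differentiable ℂ (LSeries a) := by
  intro s
  have h1 := (LSeries_differentiableOn a)
  have h2 : {s : ℂ | LSeries.abscissaOfAbsConv a < s.re} = Set.univ :=
    Set.eq_univ_of_forall fun s => h.abs s
  rw [h2] at h1
  exact h1.differentiableAt Filter.univ_mem

theorem Rap.zero_of {a : ℕ → ℂ} (h : Rap a) (h0 : ∀ s : ℂ, LSeries a s = 0) (n : ℕ) (hn : 1 ≤ n) :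
    a n = 0 := by
  have h1 : Rap (fun n => if n = 0 then 0 else a n) := h.mono (fun n => by split <;> simp)
  have h2 : LSeries (fun n => if n = 0 then 0 else a n) = 0 := by
    funext s
    rw [Pi.zero_apply, ← h0 s]
    refine LSeries_congr (fun {n} hn => ?_) s
    simp [hn]
  have h3 := (LSeries_eq_zero_iff (f := fun n => if n = 0 then 0 else a n) (by simp)).1 h2
  rcases h3 with h3 | h3
  · have := congrFun h3 n
    simpa [Nat.one_le_iff_ne_zero.1 hn] using this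
  · exact absurd h3 (ne_of_lt (lt_of_lt_of_le (h1.abs 0) le_top))

/-- absolute sums at real points -/
theorem Rap.abs_sum {a : ℕ → ℂ} (h : Rap a) (x : ℝ) :
    Summable fun n : ℕ => ‖LSeries.term a (x : ℂ) n‖ := (h.summable x).norm

theorem conj_term (a : ℕ → ℂ) (s : ℂ) (n : ℕ) :
    LSeries.term (fun n => (starRingEnd ℂ) (a n)) s n =
      (starRingEnd ℂ) (LSeries.term a ((starRingEnd ℂ) s) n) := by
  rcases eq_or_ne n 0 with rfl | hn
  · simp
  · rw [LSeries.term_of_ne_zero hn, LSeries.term_of_ne_zero hn, map_div₀]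
    congr 1
    rw [cpow_conj _ _ (by rw [natCast_arg]; exact Real.pi_ne_zero.symm), conj_natCast,
      starRingEnd_self_apply]

theorem conj_LSeries (a : ℕ → ℂ) (s : ℂ) :
    LSeries (fun n => (starRingEnd ℂ) (a n)) s =
      (starRingEnd ℂ) (LSeries a ((starRingEnd ℂ) s)) := by
  rw [LSeries, LSeries, conj_tsum]
  exact tsum_congr fun n => conj_term a s n

theorem Rap.conj {a : ℕ → ℂ} (h : Rap a) : Rap (fun n => (starRingEnd ℂ) (a n)) :=
  h.mono fun n => by simp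

/-- the functional equation in the strip extends to the whole plane -/
theorem fe_all (a : ℕ → ℂ) (h : Rap a) (Q : ℝ) (hQ : 0 < Q) (ε : ℂ)
    (hfe : ∀ s : ℂ, 0 < s.re → s.re < 1 → (Q : ℂ) ^ s * LSeries a s =
      ε * (starRingEnd ℂ) ((Q : ℂ) ^ (1 - (starRingEnd ℂ) s) *
        LSeries a (1 - (starRingEnd ℂ) s))) (s : ℂ) :
    LSeries a s = ε * (Q : ℂ) ^ (1 - 2 * s) * LSeries (fun n => (starRingEnd ℂ) (a n)) (1 - s) := by
  have hQ0 : (Q : ℂ) ≠ 0 := by exact_mod_cast hQ.ne'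
  have hQd : Differentiable ℂ fun s : ℂ => (Q : ℂ) ^ (1 - 2 * s) := fun z =>
    ((differentiableAt_const _).sub ((differentiableAt_id).const_mul 2)).const_cpow (Or.inl hQ0)
  have hd1 : Differentiable ℂ fun s : ℂ => LSeries a s := h.differentiable
  have hd2 : Differentiable ℂ fun s : ℂ =>
      ε * (Q : ℂ) ^ (1 - 2 * s) * LSeries (fun n => (starRingEnd ℂ) (a n)) (1 - s) := by
    refine (hQd.const_mul ε).mul ?_
    exact h.conj.differentiable.comp ((differentiable_const _).sub differentiable_id)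
  have h1 : AnalyticOnNhd ℂ (fun s : ℂ => LSeries a s) Set.univ :=
    fun z _ => hd1.analyticAt z
  have h2 : AnalyticOnNhd ℂ (fun s : ℂ =>
      ε * (Q : ℂ) ^ (1 - 2 * s) * LSeries (fun n => (starRingEnd ℂ) (a n)) (1 - s)) Set.univ :=
    fun z _ => hd2.analyticAt z
  have hopen : IsOpen {s : ℂ | 0 < s.re ∧ s.re < 1} :=
    (isOpen_lt continuous_const continuous_re).inter (isOpen_lt continuous_re continuous_const)
  have hmem : ((1 / 2 : ℝ) : ℂ) ∈ {s : ℂ | 0 < s.re ∧ s.re < 1} := by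
    constructor <;> norm_num
  have hev : (fun s : ℂ => LSeries a s) =ᶠ[nhds ((1 / 2 : ℝ) : ℂ)] fun s : ℂ =>
      ε * (Q : ℂ) ^ (1 - 2 * s) * LSeries (fun n => (starRingEnd ℂ) (a n)) (1 - s) := by
    filter_upwards [hopen.mem_nhds hmem] with s hs
    have h3 := hfe s hs.1 hs.2
    rw [conj_LSeries]
    have h4 : (starRingEnd ℂ) ((Q : ℂ) ^ (1 - (starRingEnd ℂ) s)) = (Q : ℂ) ^ (1 - s) := by
      have h5 : (1 - (starRingEnd ℂ) s) = (starRingEnd ℂ) (1 - s) := by simp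
      rw [h5, cpow_conj _ _ (by
        rw [arg_ofReal_of_nonneg hQ.le]; exact Real.pi_ne_zero.symm), conj_ofReal,
        starRingEnd_self_apply]
    rw [map_mul, h4] at h3
    have h6 : (Q : ℂ) ^ (1 - 2 * s) = (Q : ℂ) ^ (1 - s) * ((Q : ℂ) ^ s)⁻¹ := by
      rw [← cpow_neg, ← cpow_add _ _ hQ0]
      congr 1
      ring
    have h7 : (Q : ℂ) ^ s ≠ 0 := by
      rw [Ne, cpow_eq_zero_iff]
      tauto
    have h8 : (starRingEnd ℂ) (1 - s) = 1 - (starRingEnd ℂ) s := by simp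
    rw [h8, h6]
    field_simp
    rw [mul_comm (LSeries a s), h3]
    ring
  exact congrFun (AnalyticOnNhd.eq_of_eventuallyEq h1 h2 hev) s

end Pool.Agent.H97.WD
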