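import Pool.Agent.H97.WD.Dz1

/-! [H97 WD Dz2] the Liouville step: the coefficients vanish beyond `Q^2`, `Q^2` is an integer -/

set_option autoImplicit false

namespace Pool.Agent.H97.WD

open Complex Filter Topology

/-- the low part -/
noncomputable def lo (M : ℕ) (a : ℕ → ℂ) (n : ℕ) : ℂ := if n ≤ M then a n else 0

/-- the high part -/
noncomputable def hi (M : ℕ) (a : ℕ → ℂ) (n : ℕ) : ℂ := if n ≤ M then 0 else a n

theorem lo_norm (M : ℕ) (a : ℕ → ℂ) (n : ℕ) : ‖lo M a n‖ ≤ ‖a n‖ := by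
  unfold lo; split <;> simp

theorem hi_norm (M : ℕ) (a : ℕ → ℂ) (n : ℕ) : ‖hi M a n‖ ≤ ‖a n‖ := by
  unfold hi; split <;> simp

theorem lo_hi (M : ℕ) (a : ℕ → ℂ) : lo M a + hi M a = a := by
  funext n
  unfold lo hi
  simp only [Pi.add_apply]
  split <;> simp

theorem split_LSeries (M : ℕ) (a : ℕ → ℂ) (h : Rap a) (s : ℂ) :
    LSeries a s = LSeries (lo M a) s + LSeries (hi M a) s := by
  rw [← LSeries_add ((h.mono (lo_norm M a)).summable s) ((h.mono (hi_norm M a)).summable s),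
    lo_hi]

/-- sum of the norms at the real point `x` -/
noncomputable def NS (a : ℕ → ℂ) (x : ℝ) : ℝ := ∑' n : ℕ, ‖LSeries.term a (x : ℂ) n‖

theorem NS_nonneg (a : ℕ → ℂ) (x : ℝ) : 0 ≤ NS a x := tsum_nonneg fun _ => norm_nonneg _

theorem term_norm (a : ℕ → ℂ) (s : ℂ) (n : ℕ) (hn : n ≠ 0) :
    ‖LSeries.term a s n‖ = ‖a n‖ * (n : ℝ) ^ (-s.re) := by
  rw [LSeries.norm_term_eq, if_neg hn, Real.rpow_neg (Nat.cast_nonneg n), div_eq_mul_inv]

theorem bound_right (a : ℕ → ℂ) (h : Rap a) (s : ℂ) (hs : 0 ≤ s.re) :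
    ‖LSeries a s‖ ≤ NS a 0 := by
  unfold LSeries NS
  refine tsum_of_norm_bounded (h.abs_sum 0).hasSum fun n => ?_
  rcases eq_or_ne n 0 with rfl | hn
  · simp
  · rw [term_norm a s n hn, term_norm a _ n hn]
    refine mul_le_mul_of_nonneg_left ?_ (norm_nonneg _)
    refine Real.rpow_le_rpow_of_exponent_le (by exact_mod_cast Nat.one_le_iff_ne_zero.2 hn) ?_
    simpa using hs

/-- the low part: `Q^(-2 Re s) |L_lo(1 - s)| ≤ NS a 0` for `Re s ≥ 0` -/
theorem bound_lo (a : ℕ → ℂ) (h : Rap a) (Q : ℝ) (hQ : 0 < Q) (M : ℕ) (hM : (M : ℝ) ≤ Q ^ 2)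
    (s : ℂ) (hs : 0 ≤ s.re) :
    Q ^ (-(2 * s.re)) * ‖LSeries (lo M a) (1 - s)‖ ≤ NS a 0 := by
  have hA : 0 < Q ^ (-(2 * s.re)) := Real.rpow_pos_of_pos hQ _
  have h1 : ‖LSeries (lo M a) (1 - s)‖ ≤ Q ^ (2 * s.re) * NS a 0 := by
    unfold LSeries NS
    rw [← tsum_mul_left]
    refine tsum_of_norm_bounded ((h.abs_sum 0).mul_left _).hasSum fun n => ?_
    rcases eq_or_ne n 0 with rfl | hn
    · simp
    · rw [term_norm _ _ n hn, term_norm a _ n hn]
      by_cases hnM : n ≤ M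
      · have hn1 : (1 : ℝ) ≤ n := by exact_mod_cast Nat.one_le_iff_ne_zero.2 hn
        have h2 : (n : ℝ) ≤ Q ^ 2 := le_trans (by exact_mod_cast hnM) hM
        have h3 : (n : ℝ) ^ (-(1 - s).re) ≤ Q ^ (2 * s.re) := by
          have h4 : (-(1 - s).re) = s.re - 1 := by simp
          rw [h4]
          calc (n : ℝ) ^ (s.re - 1) ≤ (n : ℝ) ^ s.re :=
                Real.rpow_le_rpow_of_exponent_le hn1 (by linarith)
            _ ≤ (Q ^ 2) ^ s.re := Real.rpow_le_rpow (by positivity) h2 hs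
            _ = Q ^ (2 * s.re) := by
                rw [Real.rpow_mul hQ.le]
                norm_num
        have h5 : (n : ℝ) ^ (-((0 : ℝ) : ℂ).re) = 1 := by simp
        rw [h5, mul_one, mul_comm]
        exact mul_le_mul h3 (lo_norm M a n) (norm_nonneg _) (by positivity)
      · have : lo M a n = 0 := by simp [lo, hnM]
        rw [this, norm_zero, zero_mul]
        positivity
  calc Q ^ (-(2 * s.re)) * ‖LSeries (lo M a) (1 - s)‖
      ≤ Q ^ (-(2 * s.re)) * (Q ^ (2 * s.re) * NS a 0) := mul_le_mul_of_nonneg_left h1 hA.le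
    _ = NS a 0 := by
        rw [← mul_assoc, ← Real.rpow_add hQ]
        simp

/-- the high part: `Q^(-2 Re s) |L_hi(1 - s)| ≤ (Q^2/(M+1))^(-Re s) NS a 0` for `Re s ≤ 0` -/
theorem bound_hi (a : ℕ → ℂ) (h : Rap a) (Q : ℝ) (hQ : 0 < Q) (M : ℕ)
    (s : ℂ) (hs : s.re ≤ 0) :
    Q ^ (-(2 * s.re)) * ‖LSeries (hi M a) (1 - s)‖ ≤ (Q ^ 2 / (M + 1)) ^ (-s.re) * NS a 0 := by
  have hA : 0 < Q ^ (-(2 * s.re)) := Real.rpow_pos_of_pos hQ _
  have h1 : ‖LSeries (hi M a) (1 - s)‖ ≤ ((M : ℝ) + 1) ^ s.re * NS a 0 := by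
    unfold LSeries NS
    rw [← tsum_mul_left]
    refine tsum_of_norm_bounded ((h.abs_sum 0).mul_left _).hasSum fun n => ?_
    rcases eq_or_ne n 0 with rfl | hn
    · simp
    · rw [term_norm _ _ n hn, term_norm a _ n hn]
      by_cases hnM : n ≤ M
      · have : hi M a n = 0 := by simp [hi, hnM]
        rw [this, norm_zero, zero_mul]
        positivity
      · have hn1 : (1 : ℝ) ≤ n := by exact_mod_cast Nat.one_le_iff_ne_zero.2 hn
        have h2 : (M : ℝ) + 1 ≤ n := by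
          push Not at hnM
          exact_mod_cast hnM
        have h3 : (n : ℝ) ^ (-(1 - s).re) ≤ ((M : ℝ) + 1) ^ s.re := by
          have h4 : (-(1 - s).re) = s.re - 1 := by simp
          rw [h4]
          calc (n : ℝ) ^ (s.re - 1) ≤ (n : ℝ) ^ s.re :=
                Real.rpow_le_rpow_of_exponent_le hn1 (by linarith)
            _ ≤ ((M : ℝ) + 1) ^ s.re := Real.rpow_le_rpow_of_nonpos (by positivity) h2 hs
        have h5 : (n : ℝ) ^ (-((0 : ℝ) : ℂ).re) = 1 := by simp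
        rw [h5, mul_one, mul_comm]
        exact mul_le_mul h3 (hi_norm M a n) (norm_nonneg _) (by positivity)
  calc Q ^ (-(2 * s.re)) * ‖LSeries (hi M a) (1 - s)‖
      ≤ Q ^ (-(2 * s.re)) * (((M : ℝ) + 1) ^ s.re * NS a 0) := mul_le_mul_of_nonneg_left h1 hA.le
    _ = (Q ^ 2 / (M + 1)) ^ (-s.re) * NS a 0 := by
        rw [Real.div_rpow (by positivity) (by positivity), ← mul_assoc]
        congr 1
        have h6 : (Q ^ 2) ^ (-s.re) = Q ^ (-(2 * s.re)) := by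
          rw [show -(2 * s.re) = 2 * (-s.re) by ring, Real.rpow_mul hQ.le]
          norm_num
        rw [h6, Real.rpow_neg (by positivity : (0 : ℝ) ≤ (M : ℝ) + 1), div_inv_eq_mul]

theorem liou (a : ℕ → ℂ) (h : Rap a) (Q : ℝ) (hQ : 0 < Q) (ε : ℂ) (hε : ‖ε‖ = 1)
    (hfe : ∀ s : ℂ, LSeries a s = ε * (Q : ℂ) ^ (1 - 2 * s) *
      LSeries (fun n => (starRingEnd ℂ) (a n)) (1 - s)) (M : ℕ) (hM : (M : ℝ) ≤ Q ^ 2)
    (hM1 : Q ^ 2 < M + 1) (s : ℂ) :
    LSeries (hi M (fun n => (starRingEnd ℂ) (a n))) (1 - s) = 0 := by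
  set a' : ℕ → ℂ := fun n => (starRingEnd ℂ) (a n) with ha'
  have h' : Rap a' := h.conj
  have hQ0 : (Q : ℂ) ≠ 0 := by exact_mod_cast hQ.ne'
  set f : ℂ → ℂ := fun s => ε * (Q : ℂ) ^ (1 - 2 * s) * LSeries (hi M a') (1 - s) with hf
  have hf2 : ∀ s, f s = LSeries a s - ε * (Q : ℂ) ^ (1 - 2 * s) * LSeries (lo M a') (1 - s) := by
    intro s
    rw [hfe s, split_LSeries M a' h']
    simp only [hf]
    ring
  have hQd : Differentiable ℂ fun s : ℂ => (Q : ℂ) ^ (1 - 2 * s) := fun z =>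
    ((differentiableAt_const _).sub ((differentiableAt_id).const_mul 2)).const_cpow (Or.inl hQ0)
  have hfd : Differentiable ℂ f :=
    (hQd.const_mul ε).mul ((h'.mono (hi_norm M a')).differentiable.comp
      ((differentiable_const _).sub differentiable_id))
  have hQn : ∀ s : ℂ, ‖(Q : ℂ) ^ (1 - 2 * s)‖ = Q * Q ^ (-(2 * s.re)) := by
    intro s
    rw [norm_cpow_eq_rpow_re_of_pos hQ]
    have : (1 - 2 * s).re = 1 + -(2 * s.re) := by simp; ring
    rw [this, Real.rpow_add hQ, Real.rpow_one]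
  have hb1 : ∀ s : ℂ, 0 ≤ s.re → ‖f s‖ ≤ NS a 0 + Q * NS a' 0 := by
    intro s hs
    rw [hf2 s]
    refine (norm_sub_le _ _).trans (add_le_add (bound_right a h s hs) ?_)
    rw [norm_mul, norm_mul, hε, one_mul, hQn, mul_assoc]
    exact mul_le_mul_of_nonneg_left (bound_lo a' h' Q hQ M hM s hs) hQ.le
  have hb2 : ∀ s : ℂ, s.re ≤ 0 → ‖f s‖ ≤ Q * ((Q ^ 2 / (M + 1)) ^ (-s.re) * NS a' 0) := by
    intro s hs
    simp only [hf]
    rw [norm_mul, norm_mul, hε, one_mul, hQn, mul_assoc]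
    exact mul_le_mul_of_nonneg_left (bound_hi a' h' Q hQ M s hs) hQ.le
  have hk0 : 0 < Q ^ 2 / ((M : ℝ) + 1) := by positivity
  have hk1 : Q ^ 2 / ((M : ℝ) + 1) < 1 := by
    rw [div_lt_one (by positivity)]
    exact hM1
  have hbd : Bornology.IsBounded (Set.range f) := by
    rw [isBounded_iff_forall_norm_le]
    refine ⟨NS a 0 + Q * NS a' 0, ?_⟩
    rintro _ ⟨s, rfl⟩
    rcases le_total 0 s.re with hs | hs
    · exact hb1 s hs
    · refine (hb2 s hs).trans ?_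
      have h1 : (Q ^ 2 / ((M : ℝ) + 1)) ^ (-s.re) ≤ 1 :=
        Real.rpow_le_one hk0.le hk1.le (by linarith)
      have h2 : (Q ^ 2 / ((M : ℝ) + 1)) ^ (-s.re) * NS a' 0 ≤ NS a' 0 := by
        have := mul_le_mul_of_nonneg_right h1 (NS_nonneg a' 0)
        rwa [one_mul] at this
      have h3 := mul_le_mul_of_nonneg_left h2 hQ.le
      have h4 := NS_nonneg a 0
      linarith
  have hconst : ∀ z w, f z = f w := hfd.apply_eq_apply_of_bounded hbd
  -- the limit at minus infinity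
  have hlim : Tendsto (fun x : ℝ => Q * ((Q ^ 2 / ((M : ℝ) + 1)) ^ x * NS a' 0)) atTop (𝓝 0) := by
    have h1 : Tendsto (fun x : ℝ => (Q ^ 2 / ((M : ℝ) + 1)) ^ x) atTop (𝓝 0) :=
      tendsto_rpow_atTop_of_base_lt_one _ (by linarith) hk1
    have h2 := (h1.mul_const (NS a' 0)).const_mul Q
    simpa using h2
  have hf0 : ∀ z, f z = 0 := by
    intro z
    have h1 : ∀ᶠ x : ℝ in atTop, ‖f z‖ ≤ Q * ((Q ^ 2 / ((M : ℝ) + 1)) ^ x * NS a' 0) := by
      filter_upwards [eventually_ge_atTop 0] with x hx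
      have := hb2 (((-x : ℝ)) : ℂ) (by simpa using hx)
      rw [hconst z (((-x : ℝ)) : ℂ)]
      simpa using this
    have h2 : ‖f z‖ ≤ 0 := ge_of_tendsto hlim h1
    exact norm_le_zero_iff.1 h2
  have h9 := hf0 s
  simp only [hf] at h9
  have h7 : (Q : ℂ) ^ (1 - 2 * s) ≠ 0 := by
    rw [Ne, cpow_eq_zero_iff]
    tauto
  have h8 : ε ≠ 0 := by
    intro h
    rw [h, norm_zero] at hε
    exact zero_ne_one hε
  rcases mul_eq_zero.1 h9 with h10 | h10
  · exact absurd h10 (mul_ne_zero h8 h7)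
  · exact h10

theorem vanish (a : ℕ → ℂ) (h : Rap a) (Q : ℝ) (hQ : 0 < Q) (ε : ℂ) (hε : ‖ε‖ = 1)
    (hfe : ∀ s : ℂ, LSeries a s = ε * (Q : ℂ) ^ (1 - 2 * s) *
      LSeries (fun n => (starRingEnd ℂ) (a n)) (1 - s)) (M : ℕ) (hM : (M : ℝ) ≤ Q ^ 2)
    (hM1 : Q ^ 2 < M + 1) (n : ℕ) (hn : M < n) : a n = 0 := by
  have h1 : ∀ s : ℂ, LSeries (hi M (fun n => (starRingEnd ℂ) (a n))) s = 0 := by
    intro s
    have := liou a h Q hQ ε hε hfe M hM hM1 (1 - s)
    simpa using this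
  have h2 := (h.conj.mono (hi_norm M _)).zero_of h1 n (by omega)
  have h3 : (starRingEnd ℂ) (a n) = 0 := by
    simpa [hi, not_le.2 hn] using h2
  simpa using h3

end Pool.Agent.H97.WD
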