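import Mathlib

/-! [H97 WD Loc] a polynomial local factor `∑ α_j X^j = exp (∑ β_l X^l)` with `|β_l| ≤ C ρ^l` has
leading coefficient at most `ρ^L` -/

set_option autoImplicit false

namespace Pool.Agent.H97.WD

open Polynomial

/-- the polynomial -/
noncomputable def pp (α : ℕ → ℂ) (L : ℕ) : ℂ[X] := ∑ j ∈ Finset.range (L + 1), C (α j) * X ^ j

theorem pp_coeff (α : ℕ → ℂ) (L : ℕ) (hz : ∀ j, L < j → α j = 0) (j : ℕ) :
    (pp α L).coeff j = α j := by
  unfold pp
  rw [finsetSum_coeff]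
  simp only [coeff_C_mul, coeff_X_pow, mul_ite, mul_one, mul_zero]
  by_cases h : j ∈ Finset.range (L + 1)
  · rw [Finset.sum_ite_eq]; simp [h]
  · rw [Finset.sum_ite_eq]
    simp only [h, if_false]
    rw [hz j (by simpa using h)]

theorem pp_eval (α : ℕ → ℂ) (L : ℕ) (hz : ∀ j, L < j → α j = 0) (z : ℂ) :
    HasSum (fun j => α j * z ^ j) ((pp α L).eval z) := by
  have h1 : (pp α L).eval z = ∑ j ∈ Finset.range (L + 1), α j * z ^ j := by
    unfold pp
    rw [eval_finsetSum]
    simp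
  rw [h1]
  refine hasSum_sum_of_ne_finset_zero fun j hj => ?_
  rw [hz j (by simpa using hj), zero_mul]

theorem pp_deriv (α : ℕ → ℂ) (L : ℕ) (hz : ∀ j, L < j → α j = 0) (z : ℂ) :
    HasSum (fun j : ℕ => (((j + 1 : ℕ) : ℂ) * α (j + 1)) * z ^ j)
      ((derivative (pp α L)).eval z) := by
  have h1 : (derivative (pp α L)).eval z =
      ∑ j ∈ Finset.range (L + 1), (((j + 1 : ℕ) : ℂ) * α (j + 1)) * z ^ j := by
    rw [eval_eq_sum_range' (n := L + 1)]
    · refine Finset.sum_congr rfl fun j _ => ?_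
      rw [coeff_derivative, pp_coeff α L hz]
      push_cast
      ring
    · refine lt_of_le_of_lt (natDegree_derivative_le _) ?_
      have : (pp α L).natDegree ≤ L := by
        rw [natDegree_le_iff_coeff_eq_zero]
        intro N hN
        rw [pp_coeff α L hz, hz N hN]
      omega
  rw [h1]
  refine hasSum_sum_of_ne_finset_zero fun j hj => ?_
  rw [hz (j + 1) (by simp at hj; omega)]
  simp

theorem no_zero (α β : ℕ → ℂ) (h0 : α 0 = 1) (L : ℕ) (hz : ∀ j, L < j → α j = 0) (K ρ : ℝ)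
    (hρ : 0 < ρ) (hβ : ∀ l, 1 ≤ l → ‖β l‖ ≤ K * ρ ^ l)
    (hrec : ∀ j : ℕ, ((j + 1 : ℕ) : ℂ) * α (j + 1) =
      ∑ kl ∈ Finset.HasAntidiagonal.antidiagonal j, α kl.1 * (((kl.2 + 1 : ℕ) : ℂ) * β (kl.2 + 1)))
    (x : ℂ) (hx : ‖x‖ < ρ⁻¹) : (pp α L).eval x ≠ 0 := by
  have hC : 0 ≤ K := by
    have h1 := hβ 1 le_rfl
    have h2 := norm_nonneg (β 1)
    by_contra hneg
    push Not at hneg
    have : K * ρ ^ 1 < 0 := mul_neg_of_neg_of_pos hneg (by positivity)
    linarith
  obtain ⟨R, hxR, hRρ⟩ := exists_between hx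
  have hR0 : 0 < R := lt_of_le_of_lt (norm_nonneg x) hxR
  have hρR : ρ * R < 1 := by
    have := mul_lt_mul_of_pos_left hRρ hρ
    rwa [mul_inv_cancel₀ hρ.ne'] at this
  have hρR0 : 0 ≤ ρ * R := by positivity
  set g : ℂ → ℂ := fun w => ∑' l : ℕ, β (l + 1) * w ^ (l + 1) with hg
  have hu : Summable fun l : ℕ => K * (ρ * R) ^ (l + 1) := by
    refine Summable.mul_left _ ?_
    exact (summable_nat_add_iff 1).2 (summable_geometric_of_lt_one hρR0 hρR)
  have hF : ∀ l : ℕ, DifferentiableOn ℂ (fun w : ℂ => β (l + 1) * w ^ (l + 1)) (Metric.ball 0 R) :=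
    fun l => ((differentiable_id.pow (l + 1)).const_mul (β (l + 1))).differentiableOn
  have hle : ∀ (l : ℕ) (w : ℂ), w ∈ Metric.ball (0 : ℂ) R →
      ‖β (l + 1) * w ^ (l + 1)‖ ≤ K * (ρ * R) ^ (l + 1) := by
    intro l w hw
    have hw' : ‖w‖ ≤ R := by simpa using (le_of_lt (by simpa using hw : ‖w‖ < R))
    rw [norm_mul, norm_pow, mul_pow, ← mul_assoc]
    exact mul_le_mul (hβ (l + 1) (by omega)) (pow_le_pow_left₀ (norm_nonneg w) hw' _)
      (by positivity) (by positivity)
  have hgd : DifferentiableOn ℂ g (Metric.ball 0 R) :=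
    Complex.differentiableOn_tsum_of_summable_norm hu hF Metric.isOpen_ball hle
  have hder : ∀ w ∈ Metric.ball (0 : ℂ) R,
      HasSum (fun l : ℕ => (((l + 1 : ℕ) : ℂ) * β (l + 1)) * w ^ l) (deriv g w) := by
    intro w hw
    have h1 := Complex.hasSum_deriv_of_summable_norm hu hF Metric.isOpen_ball hle hw
    refine h1.congr_fun ?_
    intro l
    have : HasDerivAt (fun w : ℂ => β (l + 1) * w ^ (l + 1))
        (β (l + 1) * (((l + 1 : ℕ) : ℂ) * w ^ l)) w := by
      simpa using (hasDerivAt_pow (l + 1) w).const_mul (β (l + 1))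
    rw [this.deriv]
    ring
  -- the differential equation
  have hode : ∀ w ∈ Metric.ball (0 : ℂ) R,
      (derivative (pp α L)).eval w = (pp α L).eval w * deriv g w := by
    intro w hw
    have hw' : ‖w‖ < R := by simpa using hw
    have hs1 : Summable fun j : ℕ => ‖α j * w ^ j‖ := by
      refine summable_of_ne_finset_zero (s := Finset.range (L + 1)) fun j hj => ?_
      rw [hz j (by simpa using hj), zero_mul, norm_zero]
    have hs2 : Summable fun l : ℕ => ‖(((l + 1 : ℕ) : ℂ) * β (l + 1)) * w ^ l‖ := by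
      have := (hder w hw).summable.norm
      exact this
    have h1 := tsum_mul_tsum_eq_tsum_sum_antidiagonal_of_summable_norm hs1 hs2
    rw [(pp_eval α L hz w).tsum_eq, (hder w hw).tsum_eq] at h1
    rw [h1, ← (pp_deriv α L hz w).tsum_eq]
    refine tsum_congr fun j => ?_
    rw [hrec j, Finset.sum_mul]
    refine Finset.sum_congr rfl fun kl hkl => ?_
    have : kl.1 + kl.2 = j := by simpa using hkl
    rw [← this, pow_add]
    ring
  have hconst : ∀ w ∈ Metric.ball (0 : ℂ) R,
      (pp α L).eval w * Complex.exp (-g w) = (pp α L).eval 0 * Complex.exp (-g 0) := by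
    intro w hw
    have hop : IsOpen (Metric.ball (0 : ℂ) R) := Metric.isOpen_ball
    have hpc : IsPreconnected (Metric.ball (0 : ℂ) R) := (convex_ball 0 R).isPreconnected
    refine hop.is_const_of_deriv_eq_zero hpc
      (f := fun w => (pp α L).eval w * Complex.exp (-g w)) ?_ ?_ hw (Metric.mem_ball_self hR0)
    · exact ((pp α L).differentiable.differentiableOn).mul (hgd.neg.cexp)
    · intro z hz'
      have hgz : HasDerivAt g (deriv g z) z :=
        (hgd.differentiableAt (hop.mem_nhds hz')).hasDerivAt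
      have h2 : HasDerivAt (fun w => (pp α L).eval w * Complex.exp (-g w))
          ((derivative (pp α L)).eval z * Complex.exp (-g z) +
            (pp α L).eval z * (Complex.exp (-g z) * -deriv g z)) z :=
        ((pp α L).hasDerivAt z).mul (hgz.neg.cexp)
      rw [h2.deriv, hode z hz']
      simp
      ring
  have hx' : x ∈ Metric.ball (0 : ℂ) R := by simpa using hxR
  have h3 := hconst x hx'
  have hP0 : (pp α L).eval 0 = 1 := by
    rw [← coeff_zero_eq_eval_zero, pp_coeff α L hz, h0]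
  have hg0 : g 0 = 0 := by
    simp [hg]
  rw [hP0, hg0] at h3
  intro hcon
  rw [hcon] at h3
  simp at h3

theorem loc_bound (α β : ℕ → ℂ) (h0 : α 0 = 1) (L : ℕ) (hL : α L ≠ 0)
    (hz : ∀ j, L < j → α j = 0) (K ρ : ℝ)
    (hρ : 0 < ρ) (hβ : ∀ l, 1 ≤ l → ‖β l‖ ≤ K * ρ ^ l)
    (hrec : ∀ j : ℕ, ((j + 1 : ℕ) : ℂ) * α (j + 1) =
      ∑ kl ∈ Finset.HasAntidiagonal.antidiagonal j, α kl.1 * (((kl.2 + 1 : ℕ) : ℂ) * β (kl.2 + 1))) :
    ‖α L‖ ≤ ρ ^ L := by
  have hne : ∀ x : ℂ, (pp α L).eval x = 0 → ρ⁻¹ ≤ ‖x‖ := by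
    intro x hx
    by_contra hlt
    push Not at hlt
    exact no_zero α β h0 L hz K ρ hρ hβ hrec x hlt hx
  have hcL : (pp α L).coeff L = α L := pp_coeff α L hz L
  have hdeg : (pp α L).natDegree = L := by
    refine le_antisymm ?_ (le_natDegree_of_ne_zero (by rw [hcL]; exact hL))
    rw [natDegree_le_iff_coeff_eq_zero]
    intro N hN
    rw [pp_coeff α L hz, hz N hN]
  have hlead : (pp α L).leadingCoeff = α L := by
    rw [leadingCoeff, hdeg, hcL]
  have hP0 : pp α L ≠ 0 := by
    intro h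
    rw [h] at hcL
    simp at hcL
    exact hL hcL.symm
  have hsp : (pp α L).Splits := IsAlgClosed.splits _
  have hcard : (pp α L).roots.card = L := by
    have h1 := splits_iff_card_roots.1 hsp
    rw [h1, hdeg]
  have hprod : pp α L = C (α L) * ((pp α L).roots.map fun a => X - C a).prod := by
    have := hsp.eq_prod_roots
    rw [hlead] at this
    exact this
  have hev : (1 : ℂ) = α L * ((pp α L).roots.map fun a => -a).prod := by
    have h1 : (pp α L).eval 0 = 1 := by
      rw [← coeff_zero_eq_eval_zero, pp_coeff α L hz, h0]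
    rw [← h1]
    conv_lhs => rw [hprod]
    rw [eval_mul, eval_C, eval_multiset_prod, Multiset.map_map]
    simp
  have hnn : ‖((pp α L).roots.map fun a => -a).prod‖ = ((pp α L).roots.map fun a => ‖a‖).prod := by
    have h1 := map_multiset_prod (normHom : ℂ →*₀ ℝ) ((pp α L).roots.map fun a => -a)
    rw [Multiset.map_map] at h1
    have h2 : (⇑(normHom : ℂ →*₀ ℝ) ∘ fun a => -a) = fun a : ℂ => ‖a‖ := by
      funext a
      simp
    rw [h2] at h1
    exact h1
  have hnorm : 1 = ‖α L‖ * ((pp α L).roots.map fun a => ‖a‖).prod := by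
    have := congrArg norm hev
    rwa [norm_one, norm_mul, hnn] at this
  have hge : ∀ s : Multiset ℂ, (∀ a ∈ s, ρ⁻¹ ≤ ‖a‖) → ρ⁻¹ ^ s.card ≤ (s.map fun a => ‖a‖).prod := by
    intro s
    induction s using Multiset.induction with
    | empty => intro _; simp
    | cons a s ih =>
      intro h
      rw [Multiset.map_cons, Multiset.prod_cons, Multiset.card_cons, pow_succ, mul_comm]
      refine mul_le_mul (h a (Multiset.mem_cons_self a s))
        (ih fun b hb => h b (Multiset.mem_cons_of_mem hb)) (by positivity) (norm_nonneg a)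
  have h5 := hge (pp α L).roots fun a ha => hne a (by
    have := (mem_roots hP0).1 ha
    exact this)
  rw [hcard] at h5
  have h6 : ‖α L‖ * ρ⁻¹ ^ L ≤ 1 := by
    rw [hnorm]
    exact mul_le_mul_of_nonneg_left h5 (norm_nonneg _)
  have h7 : ρ⁻¹ ^ L * ρ ^ L = 1 := by
    rw [← mul_pow, inv_mul_cancel₀ hρ.ne', one_pow]
  calc ‖α L‖ = ‖α L‖ * ρ⁻¹ ^ L * ρ ^ L := by rw [mul_assoc, h7, mul_one]
    _ ≤ 1 * ρ ^ L := mul_le_mul_of_nonneg_right h6 (by positivity)
    _ = ρ ^ L := one_mul _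

end Pool.Agent.H97.WD
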