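import Pool.Agent.H97.WD.Dz2
import Pool.Agent.H97.WD.Loc
import Pool.Agent.H11.Selberg.Mult

/-! [H97 WD Dz3] degree zero: leading coefficients, local factors -/

set_option autoImplicit false

namespace Pool.Agent.H97.WD

open Complex Filter Topology Pool.Agent.H11.Selberg

theorem rap_of_summable (a : ℕ → ℂ) (h : ∀ s : ℂ, LSeriesSummable a s) : Rap a := by
  intro k
  have h1 : Summable fun n : ℕ => ‖LSeries.term a (-(k : ℂ)) n‖ := (h (-(k : ℂ))).norm
  obtain ⟨C, hC⟩ := h1.tendsto_atTop_zero.bddAbove_range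
  refine ⟨C, fun n hn => ?_⟩
  have h2 := hC ⟨n, rfl⟩
  have hn0 : n ≠ 0 := by omega
  simp only at h2
  rw [term_norm a _ n hn0] at h2
  have h3 : (-(-(k : ℂ)).re) = (k : ℝ) := by simp
  rw [h3] at h2
  have hpos : (0 : ℝ) < n := by exact_mod_cast hn
  have h4 : (0 : ℝ) < (n : ℝ) ^ (k : ℝ) := Real.rpow_pos_of_pos hpos _
  rw [Real.rpow_neg hpos.le, ← div_eq_mul_inv, le_div_iff₀ h4]
  exact h2

theorem fin_LSeries (a : ℕ → ℂ) (M : ℕ) (hM : ∀ n, M < n → a n = 0) (s : ℂ) :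
    LSeries a s = ∑ n ∈ Finset.Icc 1 M, a n * (n : ℂ) ^ (-s) := by
  unfold LSeries
  rw [tsum_eq_sum (s := Finset.Icc 1 M)]
  · refine Finset.sum_congr rfl fun n hn => ?_
    have hn0 : n ≠ 0 := by
      have := (Finset.mem_Icc.1 hn).1
      omega
    rw [LSeries.term_of_ne_zero hn0, cpow_neg, div_eq_mul_inv]
  · intro n hn
    rcases eq_or_ne n 0 with rfl | hn0
    · simp
    · rw [LSeries.term_of_ne_zero hn0, hM n (by
        by_contra hle
        push Not at hle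
        exact hn (Finset.mem_Icc.2 ⟨by omega, hle⟩)), zero_div]

/-- comparison of the leading terms -/
theorem lead (a : ℕ → ℂ) (ha1 : a 1 = 1) (Q : ℝ) (hQ : 0 < Q) (ε : ℂ) (hε : ‖ε‖ = 1)
    (hfe : ∀ s : ℂ, LSeries a s = ε * (Q : ℂ) ^ (1 - 2 * s) *
      LSeries (fun n => (starRingEnd ℂ) (a n)) (1 - s)) (M : ℕ) (hM : (M : ℝ) ≤ Q ^ 2)
    (hv : ∀ n, M < n → a n = 0) : (M : ℝ) = Q ^ 2 ∧ ‖a M‖ = Q := by
  have hQ0 : (Q : ℂ) ≠ 0 := by exact_mod_cast hQ.ne'
  have hM1 : 1 ≤ M := by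
    by_contra hlt
    push Not at hlt
    have := hv 1 hlt
    rw [ha1] at this
    exact one_ne_zero this
  -- the identity at `s = -x`
  have hid : ∀ x : ℝ, ∑ n ∈ Finset.Icc 1 M, a n * (((n : ℝ) / Q ^ 2) ^ x : ℝ) =
      ε * Q * ∑ n ∈ Finset.Icc 1 M, (starRingEnd ℂ) (a n) * (((n : ℝ) ^ (-(1 + x))) : ℝ) := by
    intro x
    have h1 := hfe (((-x : ℝ)) : ℂ)
    rw [fin_LSeries a M hv, fin_LSeries _ M (fun n hn => by rw [hv n hn, map_zero])] at h1
    have h2 : ∀ n ∈ Finset.Icc 1 M, a n * (((n : ℝ) / Q ^ 2) ^ x : ℝ) =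
        (a n * (n : ℂ) ^ (-((-x : ℝ) : ℂ))) * ((Q ^ (-(2 * x)) : ℝ) : ℂ) := by
      intro n hn
      have hn1 : 0 < n := (Finset.mem_Icc.1 hn).1
      have h3 : ((n : ℝ) / Q ^ 2) ^ x = (n : ℝ) ^ x * Q ^ (-(2 * x)) := by
        rw [Real.div_rpow (by positivity) (by positivity), div_eq_mul_inv, Real.rpow_neg hQ.le]
        congr 2
        rw [show 2 * x = (2 : ℝ) * x by rfl, Real.rpow_mul hQ.le]
        norm_num
      rw [h3]
      push_cast
      rw [ofReal_cpow (Nat.cast_nonneg n)]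
      push_cast
      ring_nf
    rw [Finset.sum_congr rfl h2, ← Finset.sum_mul, h1]
    have h4 : (Q : ℂ) ^ (1 - 2 * ((-x : ℝ) : ℂ)) * ((Q ^ (-(2 * x)) : ℝ) : ℂ) = Q := by
      have h5 : (1 - 2 * ((-x : ℝ) : ℂ)) = ((1 + 2 * x : ℝ) : ℂ) := by push_cast; ring
      rw [h5, ← ofReal_cpow hQ.le, ← ofReal_mul, ← Real.rpow_add hQ]
      congr 1
      rw [show 1 + 2 * x + -(2 * x) = 1 by ring, Real.rpow_one]
    have h6 : ∀ n ∈ Finset.Icc 1 M, (starRingEnd ℂ) (a n) * (n : ℂ) ^ (-(1 - ((-x : ℝ) : ℂ))) =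
        (starRingEnd ℂ) (a n) * (((n : ℝ) ^ (-(1 + x))) : ℝ) := by
      intro n hn
      congr 1
      rw [ofReal_cpow (Nat.cast_nonneg n)]
      congr 1
      push_cast
      ring
    rw [Finset.sum_congr rfl h6]
    calc ε * (Q : ℂ) ^ (1 - 2 * ((-x : ℝ) : ℂ)) *
          (∑ n ∈ Finset.Icc 1 M, (starRingEnd ℂ) (a n) * (((n : ℝ) ^ (-(1 + x))) : ℝ)) *
          ((Q ^ (-(2 * x)) : ℝ) : ℂ)
        = ε * ((Q : ℂ) ^ (1 - 2 * ((-x : ℝ) : ℂ)) * ((Q ^ (-(2 * x)) : ℝ) : ℂ)) *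
          (∑ n ∈ Finset.Icc 1 M, (starRingEnd ℂ) (a n) * (((n : ℝ) ^ (-(1 + x))) : ℝ)) := by ring
      _ = _ := by rw [h4]
  -- the limit of the right side
  have hR : Tendsto (fun x : ℝ => ε * Q * ∑ n ∈ Finset.Icc 1 M,
      (starRingEnd ℂ) (a n) * (((n : ℝ) ^ (-(1 + x))) : ℝ)) atTop (𝓝 (ε * Q)) := by
    have h1 : Tendsto (fun x : ℝ => ∑ n ∈ Finset.Icc 1 M,
        (starRingEnd ℂ) (a n) * ((((n : ℝ) ^ (-(1 + x))) : ℝ) : ℂ)) atTop
        (𝓝 (∑ n ∈ Finset.Icc 1 M, if n = 1 then 1 else 0)) := by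
      refine tendsto_finsetSum _ fun n hn => ?_
      have hn1 : 1 ≤ n := (Finset.mem_Icc.1 hn).1
      by_cases h : n = 1
      · subst h
        simp [ha1]
      · rw [if_neg h]
        have hn2 : (1 : ℝ) < n := by exact_mod_cast (lt_of_le_of_ne hn1 (Ne.symm h))
        have h2 : Tendsto (fun x : ℝ => (n : ℝ) ^ (-(1 + x))) atTop (𝓝 0) := by
          have h3 : Tendsto (fun x : ℝ => (n : ℝ)⁻¹ ^ x) atTop (𝓝 0) :=
            tendsto_rpow_atTop_of_base_lt_one _ (by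
              have : (0 : ℝ) < (n : ℝ)⁻¹ := by positivity
              linarith) (inv_lt_one_of_one_lt₀ hn2)
          have h4 := h3.const_mul ((n : ℝ)⁻¹)
          rw [mul_zero] at h4
          refine h4.congr fun x => ?_
          rw [neg_add, Real.rpow_add (by linarith), Real.rpow_neg_one, Real.inv_rpow (by linarith),
            Real.rpow_neg (by linarith)]
        have h5 := (continuous_ofReal.tendsto 0).comp h2
        have h6 := h5.const_mul ((starRingEnd ℂ) (a n))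
        simpa using h6
    have h2 : (∑ n ∈ Finset.Icc 1 M, if n = 1 then (1 : ℂ) else 0) = 1 := by
      rw [Finset.sum_ite_eq']
      simp [hM1]
    rw [h2] at h1
    have h3 := h1.const_mul (ε * Q)
    rwa [mul_one] at h3
  have hne : ε * (Q : ℂ) ≠ 0 := by
    intro h
    have := congrArg norm h
    rw [norm_mul, hε, norm_zero, one_mul] at this
    simp at this
    exact hQ.ne' this
  -- the limit of the left side
  have hL : Tendsto (fun x : ℝ => ∑ n ∈ Finset.Icc 1 M, a n * ((((n : ℝ) / Q ^ 2) ^ x : ℝ) : ℂ))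
      atTop (𝓝 (∑ n ∈ Finset.Icc 1 M, if (n : ℝ) = Q ^ 2 then a n else 0)) := by
    refine tendsto_finsetSum _ fun n hn => ?_
    have hn1 : 1 ≤ n := (Finset.mem_Icc.1 hn).1
    have hnQ : (n : ℝ) ≤ Q ^ 2 := le_trans (by exact_mod_cast (Finset.mem_Icc.1 hn).2) hM
    have hQ2 : 0 < Q ^ 2 := by positivity
    by_cases h : (n : ℝ) = Q ^ 2
    · rw [if_pos h, h, div_self hQ2.ne']
      simp
    · rw [if_neg h]
      have hlt : (n : ℝ) < Q ^ 2 := lt_of_le_of_ne hnQ h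
      have h0 : 0 < (n : ℝ) / Q ^ 2 := by positivity
      have h3 : Tendsto (fun x : ℝ => ((n : ℝ) / Q ^ 2) ^ x) atTop (𝓝 0) :=
        tendsto_rpow_atTop_of_base_lt_one _ (by linarith) ((div_lt_one hQ2).2 hlt)
      have h5 := (continuous_ofReal.tendsto 0).comp h3
      have h6 := h5.const_mul (a n)
      simpa using h6
  have hlim := tendsto_nhds_unique (hL.congr hid) hR
  have hMQ : (M : ℝ) = Q ^ 2 := by
    by_contra h
    have h1 : (∑ n ∈ Finset.Icc 1 M, if (n : ℝ) = Q ^ 2 then a n else 0) = 0 := by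
      refine Finset.sum_eq_zero fun n hn => ?_
      rw [if_neg]
      intro h2
      have h3 : (n : ℝ) ≤ M := by exact_mod_cast (Finset.mem_Icc.1 hn).2
      exact h (le_antisymm hM (h2 ▸ h3))
    rw [h1] at hlim
    exact hne hlim.symm
  refine ⟨hMQ, ?_⟩
  have h1 : (∑ n ∈ Finset.Icc 1 M, if (n : ℝ) = Q ^ 2 then a n else 0) = a M := by
    rw [Finset.sum_eq_single M]
    · rw [if_pos hMQ]
    · intro n _ hnM
      rw [if_neg]
      intro h2
      rw [← hMQ] at h2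
      exact hnM (by exact_mod_cast h2)
    · intro h
      exact absurd (Finset.mem_Icc.2 ⟨hM1, le_rfl⟩) h
  rw [h1] at hlim
  rw [hlim, norm_mul, hε, one_mul]
  simp [abs_of_pos hQ]

end Pool.Agent.H97.WD
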